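import Pool.Agent.Q161.ESM.Stm4
import Pool.Agent.Q237.ESM.Qa
import Pool.Agent.Q224.ESM.FRX

/-!
# Project ESG (helper161): tools, and job NIG
-/

set_option autoImplicit false

namespace Pool.Agent.Q285.ESG

open Polynomial NumberField IsDedekindDomain Finset
open Pool.Agent.Q51.EL (Abv Par)
open Pool.Agent.Q161.ESM
open Pool.Agent.Q237.ESM (bl val_bl abv_bl mem_bl trans_emb gal_range coe_ne' val_l exp_ne_one)

theorem zmod2 (x : ZMod 2) : x = 0 ∨ x = 1 := by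
  revert x
  decide

theorem nsmul_odd {n : ℕ} (hn : Odd n) (x : ZMod 2) : n • x = x := by
  obtain ⟨m, rfl⟩ := hn
  rw [add_smul, mul_comm, mul_smul, one_smul]
  have : ∀ y : ZMod 2, 2 • y = 0 := by decide
  rw [smul_comm, this, zero_add]

section

variable {C : Type} {K : Type} [Field K] [NumberField K] {L : C → Type} [∀ c, Field (L c)]
  [∀ c, NumberField (L c)] {Bs : C → Type} [∀ c, Field (Bs c)]
  {V : Type} [AddCommGroup V] [DistribMulAction (K ≃ₐ[ℚ] K) V]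
  {inc : (c : C) → Bs c →+* L c} {th : (c : C) → 𝓞 (L c)}
  {cd : V →+ ((c : C) → (L c →+* K) → ZMod 2)}

theorem cp_apply {L : Type} [Field L] (g : K ≃ₐ[ℚ] K) (ι : L →+* K) (x : L) : cp g ι x = g (ι x) := rfl

theorem exists_cp {L : Type} [Field L] [NumberField L] [IsGalois ℚ K] (ι ι' : L →+* K) :
    ∃ g : K ≃ₐ[ℚ] K, cp g ι = ι' := by
  obtain ⟨g, hg⟩ := trans_emb ι ι'
  exact ⟨g, RingHom.ext hg⟩

theorem nig : S_NIG := by
  intro C _ L Bs _ _ _ K _ _ _ inc th hD V _ _ cd hV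
  classical
  refine ⟨fun v => hV.inj ?_, fun v hv => hV.inj ?_⟩
  · rw [map_add, map_zero]
    funext c ι
    exact CharTwo.add_self_eq_zero _
  · rw [map_zero]
    funext c ι
    have hconst : ∀ ι' : L c →+* K, cd v c ι' = cd v c ι := by
      intro ι'
      obtain ⟨g, rfl⟩ := exists_cp ι ι'
      have h1 := hV.eqv g v c ι
      rwa [hv g] at h1
    have h2 := (hV.im (cd v)).1 ⟨v, rfl⟩ c (ι.comp (inc c))
    rw [sum_congr rfl fun ι' _ => hconst ι', sum_const] at h2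
    have h3 := (hD c).odd (ι.comp (inc c))
    have h4 := nsmul_odd h3 (cd v c ι)
    rw [Pi.zero_apply, Pi.zero_apply, ← h2]
    convert h4.symm

/-- the type of a prime exists and is unique -/
theorem tpg_unique (hV : VB inc cd) {α : (c : C) → 𝓞 (L c)} {w : HeightOneSpectrum (𝓞 K)} {t t' : V}
    (h : TpG cd α w t) (h' : TpG cd α w t') : t = t' := by
  apply hV.inj
  funext c ι
  rcases zmod2 (cd t c ι) with h1 | h1 <;> rcases zmod2 (cd t' c ι) with h2 | h2
  · rw [h1, h2]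
  · have h3 := (h c ι).1 h1
    rw [(h' c ι).2 h2] at h3
    exact (exp_ne_one h3).elim
  · have h3 := (h' c ι).1 h2
    rw [(h c ι).2 h1] at h3
    exact (exp_ne_one h3).elim
  · rw [h1, h2]

theorem par_zero {w : HeightOneSpectrum (𝓞 K)} {x : K} (h : Par w x 0)
    (h' : w.valuation K x = 1 ∨ w.valuation K x = WithZero.exp (-1 : ℤ)) : w.valuation K x = 1 := by
  rcases h' with h' | h'
  · exact h'
  · obtain ⟨k, hk⟩ := h
    rw [h', WithZero.exp_inj] at hk
    omega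

theorem par_one {w : HeightOneSpectrum (𝓞 K)} {x : K} (h : Par w x 1)
    (h' : w.valuation K x = 1 ∨ w.valuation K x = WithZero.exp (-1 : ℤ)) :
    w.valuation K x = WithZero.exp (-1 : ℤ) := by
  rcases h' with h' | h'
  · obtain ⟨k, hk⟩ := h
    rw [h', ← WithZero.exp_zero, WithZero.exp_inj] at hk
    omega
  · exact h'

/-- the type of a prime -/
theorem tpg_exists (hV : VB inc cd) {B : ℕ} {D : ℤ} {α : (c : C) → 𝓞 (L c)}
    (hG : ∀ c, Gd1 K (inc c) (th c) B D (α c : L c)) {l : ℕ} (hl : l.Prime) (hlB : ¬ l ∣ B)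
    (hlD : (l : ℤ) ∣ D) {w : HeightOneSpectrum (𝓞 K)} (hw : Abv w l)
    (hn : ∀ (c : C) (ι : L c →+* K),
      w.valuation K (ι (α c : L c)) = 1 ∨ w.valuation K (ι (α c : L c)) = WithZero.exp (-1 : ℤ))
    {F : K ≃ₐ[ℚ] K} (hF : Fb w l F) : ∃ t : V, TpG cd α w t := by
  classical
  choose e he1 _ he3 _ using fun c => (hG c).odd l hl hlB hlD w hw F hF
  obtain ⟨t, ht⟩ := (hV.im e).2 fun c τ => by
    have := he1 c τ
    convert this
  refine ⟨t, fun c ι => ⟨fun h => ?_, fun h => ?_⟩⟩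
  · rw [ht] at h
    exact par_zero ((he3 c ι).1 h) (hn c ι)
  · rw [ht] at h
    exact par_one ((he3 c ι).2 h) (hn c ι)

theorem val_even {B : ℕ} {D : ℤ} {α : (c : C) → 𝓞 (L c)} {z : V → 𝓞 K}
    (hR : RG0 inc th cd B D α z) {l : ℕ} (hl : l.Prime) (hlB : ¬ l ∣ B)
    (hlD : ¬ (l : ℤ) ∣ D) {w : HeightOneSpectrum (𝓞 K)} (hw : Abv w l) (c : C) (ι : L c →+* K) :
    w.valuation K (ι (α c : L c)) = 1 :=
  par_zero ((hR.gd c).even l hl hlB hlD w hw ι) (hR.nrm l hl hlB w hw c ι)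

/-- the valuations of the products of the `z t` -/
theorem val_prodG [Fintype V] {B : ℕ} {D : ℤ} {α : (c : C) → 𝓞 (L c)}
    {z : V → 𝓞 K} (hR : RG0 inc th cd B D α z) {l : ℕ} (hl : l.Prime) (hlB : ¬ l ∣ B)
    {w : HeightOneSpectrum (𝓞 K)} (hw : Abv w l) (hlD : (l : ℤ) ∣ D) {t0 : V}
    (h0 : TpG cd α w t0) (hu : ∀ t, TpG cd α w t → t = t0) (P : V → Prop) [DecidablePred P] :
    w.valuation K (∏ t ∈ univ.filter P, (z t : K)) = if P t0 then WithZero.exp (-1 : ℤ) else 1 := by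
  classical
  rw [map_prod]
  have h1 : ∀ t ∈ univ.filter P, w.valuation K (z t : K) =
      if t0 = t then WithZero.exp (-1 : ℤ) else 1 := by
    intro t _
    split_ifs with h
    · rw [← h]
      exact (hR.typ l hl hlB w hw t0).1 ⟨hlD, h0⟩
    · exact (hR.typ l hl hlB w hw t).2 fun h2 => h (hu t h2.2).symm
  rw [prod_congr rfl h1, prod_ite_eq]
  simp only [mem_filter, mem_univ, true_and]

theorem val_prodG_one [Fintype V] {B : ℕ} {D : ℤ} {α : (c : C) → 𝓞 (L c)}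
    {z : V → 𝓞 K} (hR : RG0 inc th cd B D α z) {l : ℕ} (hl : l.Prime) (hlB : ¬ l ∣ B)
    {w : HeightOneSpectrum (𝓞 K)} (hw : Abv w l) (hlD : ¬ (l : ℤ) ∣ D) (P : V → Prop) [DecidablePred P] :
    w.valuation K (∏ t ∈ univ.filter P, (z t : K)) = 1 := by
  rw [map_prod]
  exact prod_eq_one fun t _ => (hR.typ l hl hlB w hw t).2 fun h2 => hlD h2.1

theorem prod_smul [Fintype V] {z : V → 𝓞 K} (hz : Eqv z) (g : K ≃ₐ[ℚ] K) (P Q : V → Prop) [DecidablePred P]
    [DecidablePred Q]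
    (h : ∀ t, P t ↔ Q (g • t)) :
    g (∏ t ∈ univ.filter P, (z t : K)) = ∏ t ∈ univ.filter Q, (z t : K) := by
  rw [map_prod]
  refine prod_bij (fun t _ => g • t) ?_ ?_ ?_ ?_
  · intro t ht
    rw [mem_filter] at ht ⊢
    exact ⟨mem_univ _, (h t).1 ht.2⟩
  · intro a _ b _ h
    exact MulAction.injective g h
  · intro s hs
    rw [mem_filter] at hs
    refine ⟨g⁻¹ • s, ?_, smul_inv_smul g s⟩
    rw [mem_filter]
    refine ⟨mem_univ _, ?_⟩
    rw [h, smul_inv_smul]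
    exact hs.2
  · intro t _
    exact (hz g t).symm

end

end Pool.Agent.Q285.ESG
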