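import Pool.Agent.Q285.ESG.Base

/-!
# Project ESG (helper161), jobs QAG and QDG: the classes of `α_c` and `D`
-/

set_option autoImplicit false

namespace Pool.Agent.Q285.ESG

open Polynomial NumberField IsDedekindDomain Finset
open Pool.Agent.Q51.EL (Abv Par)
open Pool.Agent.Q161.ESM
open Pool.Agent.Q237.ESM (bl val_bl abv_bl mem_bl trans_emb gal_range coe_ne' val_l exp_ne_one val_intK)

/-- every prime of `L` above `l` lies below `w` via some embedding -/
theorem exists_blG {K : Type} [Field K] [NumberField K] [IsGalois ℚ K] {L : Type} [Field L] [NumberField L]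
    (ι0 : L →+* K) (w : HeightOneSpectrum (𝓞 K)) {l : ℕ}
    (hl : l.Prime) (hw : Abv w l) (v : HeightOneSpectrum (𝓞 L)) (hv : Abv v l) :
    ∃ ι : L →+* K, v = bl ι w hl hw := by
  haveI := w.isPrime
  obtain ⟨g, hg⟩ := Pool.Agent.Q299.ESM.exists_pb ι0 w.asIdeal hl hw v hv
  refine ⟨cp g ι0, ?_⟩
  rw [hg]
  apply HeightOneSpectrum.ext
  ext x
  rw [mem_bl]
  show x ∈ RingHom.ker (Pool.Agent.Q299.ESM.ph ι0 w.asIdeal g) ↔ _
  rw [RingHom.mem_ker, Pool.Agent.Q299.ESM.ph_apply, Ideal.Quotient.eq_zero_iff_mem]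
  have h1 : g • RingOfIntegers.mapRingHom ι0 x =
      RingOfIntegers.mapRingHom (cp g ι0) x := by
    apply FaithfulSMul.algebraMap_injective (𝓞 K) K
    rfl
  rw [h1]

theorem qag : S_SUF → S_QAG := by
  classical
  intro hSUF C _ L Bs _ _ _ K _ _ _ inc th hD V _ _ _ cd hV
  obtain ⟨B1, hB1, hB⟩ := Pool.Agent.Q224.ESM.frx K
  refine ⟨B1, hB1, fun B hBB hB0 => ?_⟩
  choose Q hQ0 hQ using fun c => hSUF (L c) B hB0
  refine ⟨Q, fun D α z hR c => ?_⟩
  obtain ⟨ι0⟩ := (hD c).emb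
  set Ak : (L c →+* K) → K := fun ι => ι (α c : L c) *
    (∏ t ∈ univ.filter (fun t => cd t c ι = 1), (z t : K)) with hAk
  have hgA : ∀ (g : K ≃ₐ[ℚ] K) (ι : L c →+* K), g (Ak ι) = Ak (cp g ι) := by
    intro g ι
    rw [hAk]
    simp only
    rw [map_mul, prod_smul hR.eqv g (fun t => cd t c ι = 1) (fun t => cd t c (cp g ι) = 1) fun t => by
      rw [hV.eqv]]
    rfl
  obtain ⟨A, hA⟩ := gal_range ι0 (Ak ι0) (fun g hg => by
    rw [hgA]
    have : cp g ι0 = ι0 := RingHom.ext hg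
    rw [this])
  have hAA : ∀ ι, ι A = Ak ι := by
    intro ι
    obtain ⟨g, rfl⟩ := exists_cp ι0 ι
    rw [← hgA, ← hA]
    rfl
  have hA0 : A ≠ 0 := by
    intro h
    rw [h, map_zero] at hA
    have h1 : Ak ι0 ≠ 0 := by
      refine mul_ne_zero ?_ (prod_ne_zero_iff.2 fun t _ => coe_ne' (hR.ne t))
      rw [Ne, map_eq_zero]
      exact coe_ne' (hR.a0 c)
    exact h1 hA.symm
  obtain ⟨a, ha, q, hq, haq⟩ := hQ c A hA0 (by
    intro v hv
    obtain ⟨l, _, hl, hlv, -, -⟩ := Pool.Agent.Q239.EL.below v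
    have hlB : ¬ l ∣ B := by
      rintro ⟨c, hc⟩
      apply hv
      rw [hc, Nat.cast_mul]
      exact v.asIdeal.mul_mem_right _ hlv
    obtain ⟨hsq, ⟨w, hw⟩, hF⟩ := hB l hl fun h => hlB (h.trans hBB)
    obtain ⟨⟨F, hF⟩, -⟩ := hF w hw
    obtain ⟨ι, hι⟩ := exists_blG ι0 w hl hw v hlv
    have h1 : v.valuation (L c) A = w.valuation K (Ak ι) := by
      rw [hι, ← val_bl ι w hl hw hsq, hAA]
    unfold Par
    rw [h1, hAk]
    simp only
    rw [map_mul]
    by_cases hlD : (l : ℤ) ∣ D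
    · obtain ⟨t0, ht0⟩ := tpg_exists hV hR.gd hl hlB hlD hw (hR.nrm l hl hlB w hw) hF
      rw [val_prodG hR hl hlB hw hlD ht0 fun t ht => tpg_unique hV ht ht0]
      rcases zmod2 (cd t0 c ι) with h2 | h2
      · rw [if_neg (by rw [h2]; decide), mul_one, (ht0 c ι).1 h2]
        exact ⟨0, by simp⟩
      · rw [if_pos h2, (ht0 c ι).2 h2, ← WithZero.exp_add]
        exact ⟨-1, by norm_num⟩
    · rw [val_even hR hl hlB hlD hw c ι, val_prodG_one hR hl hlB hw hlD, one_mul]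
      exact ⟨0, by simp⟩)
  refine ⟨a, ha, q, hq, fun ι => ?_⟩
  have h1 := hAA ι
  rw [haq, map_mul, map_pow] at h1
  exact h1.symm

theorem qdg : S_QDG := by
  classical
  intro C _ L Bs _ _ _ K _ _ _ inc th hD V _ _ _ cd hV
  obtain ⟨B1, hB1, hB⟩ := Pool.Agent.Q224.ESM.frx K
  refine ⟨B1, hB1, fun B hBB hB0 D α z hR => ?_⟩
  set M : 𝓞 K := (D : 𝓞 K) * (∏ t, z t) with hM
  have hMK : (M : K) = (D : K) * ∏ t ∈ univ.filter (fun _ => True), (z t : K) := by
    rw [hM, filter_true]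
    show algebraMap (𝓞 K) K _ = _
    rw [map_mul, map_prod, map_intCast]
  have hD0 : D ≠ 0 := hR.sq.ne_zero
  have hM0 : (M : K) ≠ 0 := by
    rw [hMK]
    refine mul_ne_zero (by exact_mod_cast hD0) (prod_ne_zero_iff.2 fun t _ => coe_ne' (hR.ne t))
  have hfix : ∀ g : K ≃ₐ[ℚ] K, g (M : K) = M := by
    intro g
    rw [hMK, map_mul, prod_smul hR.eqv g (fun _ => True) (fun _ => True) fun t => Iff.rfl, map_intCast]
  obtain ⟨r, hr⟩ := (IsGalois.mem_range_algebraMap_iff_fixed (F := ℚ) (E := K) (M : K)).2 hfix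
  have hint : IsIntegral ℤ r := by
    have h1 : IsIntegral ℤ (algebraMap ℚ K r) := by
      rw [hr]
      exact RingOfIntegers.isIntegral_coe M
    exact (isIntegral_algebraMap_iff (algebraMap ℚ K).injective).1 h1
  obtain ⟨N, hN⟩ := IsIntegrallyClosed.isIntegral_iff.1 hint
  have hMN : (M : K) = (N : K) := by
    rw [← hr, ← hN]
    simp
  have hN0 : N ≠ 0 := by
    rintro rfl
    apply hM0
    rw [hMN, Int.cast_zero]
  obtain ⟨μ, s, hμs, hμ⟩ := Pool.Agent.Q151.OS.kap_dvd hN0 (B := B) (by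
    intro l hl hlB
    obtain ⟨hsq, ⟨w, hw⟩, hF⟩ := hB l hl fun h => hlB (h.trans hBB)
    obtain ⟨⟨F, hF⟩, -⟩ := hF w hw
    haveI : Fact l.Prime := ⟨hl⟩
    have h1 := val_intK hl hsq hw hN0
    rw [← hMN, hMK, map_mul] at h1
    by_cases hlD : (l : ℤ) ∣ D
    · obtain ⟨t0, ht0⟩ := tpg_exists hV hR.gd hl hlB hlD hw (hR.nrm l hl hlB w hw) hF
      rw [val_prodG hR hl hlB hw hlD ht0 fun t ht => tpg_unique hV ht ht0, if_pos trivial] at h1
      obtain ⟨c, hc⟩ := hlD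
      have hnc : ¬ (l : ℤ) ∣ c := by
        intro hd
        have h4 : (l : ℤ) * l ∣ D := by
          rw [hc]
          exact mul_dvd_mul_left _ hd
        have h5 := hR.sq _ h4
        rw [Int.isUnit_iff] at h5
        have h6 := hl.two_le
        omega
      rw [hc, Int.cast_mul, Int.cast_natCast, map_mul, val_l hl hsq hw,
        Pool.Agent.Q239.EL.val_int_eq hw hnc, mul_one, ← WithZero.exp_add,
        WithZero.exp_inj] at h1
      have h7 : padicValInt l N = 2 := by omega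
      rw [h7]
      exact even_two
    · rw [val_prodG_one hR hl hlB hw hlD, mul_one, Pool.Agent.Q239.EL.val_int_eq hw hlD,
          ← WithZero.exp_zero, WithZero.exp_inj] at h1
      have h7 : padicValInt l N = 0 := by omega
      rw [h7]
      exact Even.zero)
  refine ⟨μ, s, hμ, ?_, ?_⟩
  · rintro rfl
    apply hN0
    rw [hμs]
    ring
  · rw [← hμs]
    apply FaithfulSMul.algebraMap_injective (𝓞 K) K
    show (M : K) = algebraMap (𝓞 K) K ((N : ℤ) : 𝓞 K)
    rw [hMN, map_intCast]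

end Pool.Agent.Q285.ESG
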